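import Pool.Agent.Helper69.Mix.Final

/-!
# k-COLOUR-MIXING is PSPACE-complete for every k at least 4

The definitions are in `Pool/Agent/Helper69/Mix/PSpace.lean` (polynomial space, polynomial time
many-one reductions, PSPACE-completeness) and in `Pool/Agent/Helper69/Mix/MixDefs.lean` (the
colouring graph, mixing, the encoding of graphs and the decision problem).
-/

namespace Pool.Agent.Results.MP_8006ab_lc.PSPACEComplete

open Pool.Agent.Helper69.Mix

/-- For every `k ≥ 4`, k-COLOUR-MIXING is PSPACE-complete under polynomial time many-one
reductions. -/
theorem result : ∀ k : ℕ, 4 ≤ k → PSPACEComplete (ColourMixing k) := colourMixing_complete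

end Pool.Agent.Results.MP_8006ab_lc.PSPACEComplete
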